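import Mathlib

set_option autoImplicit false

open Finset

namespace Pool.Agent.Helper1.BE

/-- local factor -/
noncomputable def fac (c : ℕ) (j : ℤ) (p a : ℕ) : ℝ := if (p : ℤ) ∣ c * a + j then 1 / p else 1

lemma fac_nonneg (c : ℕ) (j : ℤ) (p a : ℕ) : 0 ≤ fac c j p a := by
  unfold fac; split_ifs <;> positivity

lemma fac_le_one (c : ℕ) (j : ℤ) (p a : ℕ) : fac c j p a ≤ 1 := by
  unfold fac; split_ifs
  · rcases Nat.eq_zero_or_pos p with rfl | hp
    · simp
    · rw [div_le_one (by exact_mod_cast hp)]; exact_mod_cast hp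
  · exact le_rfl

lemma fac_congr (c : ℕ) (j : ℤ) (p a b : ℕ) (h : a ≡ b [MOD p]) : fac c j p a = fac c j p b := by
  unfold fac
  have h1 : ((p : ℤ) ∣ c * a + j) ↔ ((p : ℤ) ∣ c * b + j) := by
    have h2 : (p : ℤ) ∣ (b : ℤ) - a := (Nat.modEq_iff_dvd).1 h
    have h3 : (p : ℤ) ∣ (c * b + j) - (c * a + j) := by
      have : ((c : ℤ) * b + j) - (c * a + j) = c * ((b : ℤ) - a) := by ring
      rw [this]
      exact Dvd.dvd.mul_left h2 _
    exact (dvd_iff_dvd_of_dvd_sub h3).symm
  simp only [h1]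

/-- averaged local factor -/
noncomputable def avg (c : ℕ) (j : ℤ) (p : ℕ) (A : Finset ℕ) : ℝ :=
  (∑ a ∈ A, fac c j p a) / A.card

lemma avg_nonneg (c : ℕ) (j : ℤ) (p : ℕ) (A : Finset ℕ) : 0 ≤ avg c j p A := by
  unfold avg
  apply div_nonneg (sum_nonneg fun a _ => fac_nonneg _ _ _ _) (by positivity)

theorem exists_avg (c : ℕ) (A : ℕ → Finset ℕ) (S : Finset ℤ) (P : Finset ℕ) :
    ∀ (_ : ∀ p ∈ P, p.Prime) (_ : ∀ p ∈ P, (A p).Nonempty) (_ : ∀ p ∈ P, ∀ a ∈ A p, a < p)
      (w : ℤ → ℝ) (_ : ∀ j, 0 ≤ w j),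
    ∃ v : ℕ, (∀ p ∈ P, v % p ∈ A p) ∧
      ∑ j ∈ S, w j * ∏ p ∈ P, fac c j p v ≤ ∑ j ∈ S, w j * ∏ p ∈ P, avg c j p (A p) := by
  classical
  induction P using Finset.induction_on with
  | empty =>
    intro _ _ _ w _
    exact ⟨0, by simp, by simp⟩
  | insert q P hq ih =>
    intro hP hA hA' w hw
    have hAq : (A q).Nonempty := hA q (mem_insert_self _ _)
    have hcard : (0 : ℝ) < (A q).card := by exact_mod_cast hAq.card_pos
    -- choose the residue modulo q
    obtain ⟨a, haA, ha⟩ : ∃ a ∈ A q, ∑ j ∈ S, w j * (fac c j q a * ∏ p ∈ P, avg c j p (A p)) ≤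
        ∑ j ∈ S, w j * (avg c j q (A q) * ∏ p ∈ P, avg c j p (A p)) := by
      by_contra hcon
      push Not at hcon
      have h1 : ∑ a ∈ A q, ∑ j ∈ S, w j * (avg c j q (A q) * ∏ p ∈ P, avg c j p (A p)) <
          ∑ a ∈ A q, ∑ j ∈ S, w j * (fac c j q a * ∏ p ∈ P, avg c j p (A p)) :=
        sum_lt_sum_of_nonempty hAq hcon
      rw [sum_const, nsmul_eq_mul, sum_comm, mul_sum] at h1
      apply lt_irrefl _ (h1.trans_le (le_of_eq _))
      apply sum_congr rfl
      intro j _
      rw [← mul_sum, ← sum_mul]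
      unfold avg
      field_simp
    obtain ⟨v0, hv0, hv0'⟩ := ih (fun p hp => hP p (mem_insert_of_mem hp))
      (fun p hp => hA p (mem_insert_of_mem hp)) (fun p hp => hA' p (mem_insert_of_mem hp))
      (fun j => w j * fac c j q a) (fun j => mul_nonneg (hw j) (fac_nonneg _ _ _ _))
    -- Chinese remainder
    have hcop : Nat.Coprime (∏ p ∈ P, p) q := by
      apply Nat.Coprime.prod_left
      intro p hp
      rw [Nat.coprime_primes (hP p (mem_insert_of_mem hp)) (hP q (mem_insert_self _ _))]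
      rintro rfl
      exact hq hp
    obtain ⟨v, hv1, hv2⟩ := Nat.chineseRemainder hcop v0 a
    have hvp : ∀ p ∈ P, v ≡ v0 [MOD p] := fun p hp =>
      Nat.ModEq.of_dvd (dvd_prod_of_mem (fun p => p) hp) hv1
    refine ⟨v, ?_, ?_⟩
    · intro p hp
      rcases mem_insert.1 hp with rfl | hp'
      · have : v % p = a % p := hv2
        rw [this, Nat.mod_eq_of_lt (hA' p hp a haA)]
        exact haA
      · have : v % p = v0 % p := hvp p hp'
        rw [this]
        exact hv0 p hp'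
    · calc ∑ j ∈ S, w j * ∏ p ∈ insert q P, fac c j p v
          = ∑ j ∈ S, w j * fac c j q a * ∏ p ∈ P, fac c j p v0 := by
            apply sum_congr rfl
            intro j _
            rw [prod_insert hq, fac_congr c j q v a hv2, mul_assoc]
            congr 2
            apply prod_congr rfl
            intro p hp
            exact fac_congr c j p v v0 (hvp p hp)
        _ ≤ ∑ j ∈ S, w j * fac c j q a * ∏ p ∈ P, avg c j p (A p) := hv0'
        _ = ∑ j ∈ S, w j * (fac c j q a * ∏ p ∈ P, avg c j p (A p)) := by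
            apply sum_congr rfl
            intro j _
            ring
        _ ≤ ∑ j ∈ S, w j * (avg c j q (A q) * ∏ p ∈ P, avg c j p (A p)) := ha
        _ = ∑ j ∈ S, w j * ∏ p ∈ insert q P, avg c j p (A p) := by
            apply sum_congr rfl
            intro j _
            rw [prod_insert hq]

/-- the reciprocal of the gcd with a squarefree number -/
lemma inv_gcd (P : Finset ℕ) (hP : ∀ p ∈ P, p.Prime) (c v : ℕ) (j : ℤ) :
    (1 : ℝ) / (Int.gcd (c * v + j) ((∏ p ∈ P, p : ℕ) : ℤ)) = ∏ p ∈ P, fac c j p v := by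
  classical
  induction P using Finset.induction_on with
  | empty => simp
  | insert q P hq ih =>
    rw [prod_insert hq, prod_insert hq, ← ih (fun p hp => hP p (mem_insert_of_mem hp))]
    have hqp := hP q (mem_insert_self _ _)
    have hcop : Nat.Coprime q (∏ p ∈ P, p) := by
      apply Nat.Coprime.prod_right
      intro p hp
      rw [Nat.coprime_primes hqp (hP p (mem_insert_of_mem hp))]
      rintro rfl
      exact hq hp
    have h1 : Int.gcd (c * v + j) ((q * ∏ p ∈ P, p : ℕ) : ℤ) =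
        Int.gcd (c * v + j) (q : ℤ) * Int.gcd (c * v + j) ((∏ p ∈ P, p : ℕ) : ℤ) := by
      simp only [Int.gcd, Int.natAbs_natCast]
      exact hcop.gcd_mul _
    rw [h1]
    push_cast
    rw [← one_div_mul_one_div]
    congr 1
    unfold fac
    split_ifs with h
    · have : Int.gcd (c * v + j) (q : ℤ) = q := by
        have h2 : q ∣ (c * v + j : ℤ).natAbs := Int.natCast_dvd.1 h
        simp only [Int.gcd, Int.natAbs_natCast]
        exact Nat.gcd_eq_right h2
      rw [this]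
    · have : Int.gcd (c * v + j) (q : ℤ) = 1 := by
        have h2 : ¬ q ∣ (c * v + j : ℤ).natAbs := fun h3 => h (Int.natCast_dvd.2 h3)
        simp only [Int.gcd, Int.natAbs_natCast]
        rw [Nat.gcd_comm]
        exact (Nat.Prime.coprime_iff_not_dvd hqp).2 h2
      rw [this]
      simp

/-- the averaged factor at a good prime -/
lemma avg_good (c : ℕ) (j : ℤ) (p : ℕ) (hp : p.Prime) (A : Finset ℕ) (hA : ∀ a ∈ A, a < p)
    (a0 : ℕ) (ha0 : a0 ∈ A) (hdvd : (p : ℤ) ∣ c * a0 + j) :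
    avg c j p A ≤ 1 - 1 / p + 1 / (p : ℝ) ^ 2 := by
  classical
  have hp0 : (0 : ℝ) < p := by exact_mod_cast hp.pos
  have hp1 : (1 : ℝ) ≤ p := by exact_mod_cast hp.one_lt.le
  have hcard0 : (0 : ℝ) < A.card := by exact_mod_cast card_pos.2 ⟨a0, ha0⟩
  have hcard : (A.card : ℝ) ≤ p := by
    have : A ⊆ range p := fun a ha => mem_range.2 (hA a ha)
    have := card_le_card this
    rw [card_range] at this
    exact_mod_cast this
  have h1 : ∑ a ∈ A, fac c j p a ≤ A.card - (1 - 1 / p) := by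
    rw [← add_sum_erase A _ ha0]
    have h2 : fac c j p a0 = 1 / p := by unfold fac; rw [if_pos hdvd]
    have h3 : ∑ a ∈ A.erase a0, fac c j p a ≤ ∑ a ∈ A.erase a0, (1 : ℝ) :=
      sum_le_sum fun a _ => fac_le_one _ _ _ _
    rw [sum_const, nsmul_eq_mul, mul_one, card_erase_of_mem ha0,
      Nat.cast_sub (card_pos.2 ⟨a0, ha0⟩)] at h3
    push_cast at h3
    linarith
  unfold avg
  rw [div_le_iff₀ hcard0]
  refine h1.trans ?_
  have h4 : 0 ≤ 1 - 1 / (p : ℝ) := by
    rw [sub_nonneg, div_le_one hp0]; exact hp1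
  have h5 : (1 - 1 / (p : ℝ)) * ((A.card : ℝ) / p) ≤ 1 - 1 / p := by
    have : (A.card : ℝ) / p ≤ 1 := by rw [div_le_one hp0]; exact hcard
    calc (1 - 1 / (p : ℝ)) * ((A.card : ℝ) / p) ≤ (1 - 1 / (p : ℝ)) * 1 := by gcongr
      _ = _ := mul_one _
  have h6 : (1 - 1 / (p : ℝ) + 1 / (p : ℝ) ^ 2) * A.card =
      A.card - (1 - 1 / (p : ℝ)) * ((A.card : ℝ) / p) := by
    field_simp; ring
  rw [h6]
  linarith

lemma avg_le_one (c : ℕ) (j : ℤ) (p : ℕ) (A : Finset ℕ) : avg c j p A ≤ 1 := by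
  unfold avg
  rcases A.eq_empty_or_nonempty with rfl | hne
  · simp
  · rw [div_le_one (by exact_mod_cast hne.card_pos)]
    calc ∑ a ∈ A, fac c j p a ≤ ∑ a ∈ A, (1 : ℝ) := sum_le_sum fun a _ => fac_le_one _ _ _ _
      _ = A.card := by rw [sum_const, nsmul_eq_mul, mul_one]

end Pool.Agent.Helper1.BE
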