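import Mathlib
import Pool.Prelude.Def_F_43b934ad

set_option autoImplicit false

open Finset
open scoped ArithmeticFunction.sigma Nat

namespace Pool.Agent.Helper1.BE

/-- quotient of consecutive divisor counts of factorials -/
noncomputable def gg (m : ℕ) : ℝ := (σ 0 (m ! ) : ℝ) / (σ 0 ((m - 1) ! ) : ℝ)

lemma sig_pos (n : ℕ) (hn : n ≠ 0) : (0 : ℝ) < (σ 0 n : ℝ) := by
  rw [ArithmeticFunction.sigma_zero_apply]
  have : 0 < #n.divisors := Finset.card_pos.2 ⟨1, Nat.one_mem_divisors.2 hn⟩
  exact_mod_cast this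

lemma sig_eq (n : ℕ) (hn : n ≠ 0) (S : Finset ℕ) (hS : n.primeFactors ⊆ S) :
    (σ 0 n : ℝ) = ∏ p ∈ S, ((n.factorization p : ℝ) + 1) := by
  rw [ArithmeticFunction.sigma_zero_apply, Nat.card_divisors hn]
  push_cast
  apply prod_subset hS
  intro p _ hp
  have : n.factorization p = 0 := by
    rw [← Finsupp.notMem_support_iff, Nat.support_factorization]; exact hp
  simp [this]

lemma gg_eq (m : ℕ) (hm : 0 < m) :
    gg m = ∏ p ∈ m.primeFactors,
      (1 + (m.factorization p : ℝ) / (((m - 1)!).factorization p + 1)) := by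
  unfold gg
  obtain ⟨n, rfl⟩ : ∃ n, m = n + 1 := ⟨m - 1, by omega⟩
  simp only [Nat.add_sub_cancel]
  have h1 : (n !).primeFactors ⊆ ((n + 1)!).primeFactors := by
    apply Nat.primeFactors_mono _ (Nat.factorial_ne_zero _)
    exact Nat.factorial_dvd_factorial (Nat.le_succ n)
  have h2 : (n + 1).primeFactors ⊆ ((n + 1)!).primeFactors := by
    apply Nat.primeFactors_mono _ (Nat.factorial_ne_zero _)
    exact Nat.dvd_factorial (Nat.succ_pos n) le_rfl
  rw [sig_eq _ (Nat.factorial_ne_zero _) _ (subset_refl ((n + 1)!).primeFactors),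
    sig_eq _ (Nat.factorial_ne_zero _) _ h1, ← prod_div_distrib]
  symm
  have h3 : ∀ p ∈ ((n + 1)!).primeFactors,
      (((n + 1)!.factorization p : ℝ) + 1) / (((n !).factorization p : ℝ) + 1) =
        1 + ((n + 1).factorization p : ℝ) / (((n)!).factorization p + 1) := by
    intro p _
    rw [Nat.factorial_succ, Nat.factorization_mul (Nat.succ_ne_zero n) (Nat.factorial_ne_zero n)]
    have : ((n !).factorization p : ℝ) + 1 ≠ 0 := by positivity
    simp only [Finsupp.add_apply]
    push_cast
    field_simp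
    ring
  rw [prod_congr rfl h3]
  apply prod_subset h2
  intro p _ hp
  have : (n + 1).factorization p = 0 := by
    rw [← Finsupp.notMem_support_iff, Nat.support_factorization]; exact hp
  simp [this]

lemma one_le_prod_real {ι : Type*} (S : Finset ι) (u : ι → ℝ) (h : ∀ i ∈ S, 1 ≤ u i) :
    1 ≤ ∏ i ∈ S, u i := by
  classical
  induction S using Finset.induction_on with
  | empty => simp
  | insert a S ha ih =>
    rw [prod_insert ha]
    have h1 := h a (mem_insert_self _ _)
    have h2 := ih (fun i hi => h i (mem_insert_of_mem hi))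
    nlinarith

lemma gg_ge_one (m : ℕ) : 1 ≤ gg m := by
  rcases Nat.eq_zero_or_pos m with rfl | hm
  · simp [gg]
  · rw [gg_eq m hm]
    apply one_le_prod_real
    intro p _
    have : (0 : ℝ) ≤ (m.factorization p : ℝ) / (((m - 1)!).factorization p + 1) := by positivity
    linarith

lemma val_lower (m p : ℕ) (hm : 0 < m) (hp : p.Prime) (h : p ∣ m) :
    (m : ℝ) / p ≤ (((m - 1)!).factorization p : ℝ) + 1 := by
  have h1 : (m - 1) / p ≤ ((m - 1)!).factorization p := by
    have hb : Nat.log p (m - 1) < Nat.log p (m - 1) + 2 := by omega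
    rw [Nat.factorization_factorial hp hb]
    have : (m - 1) / p = (m - 1) / p ^ 1 := by simp
    rw [this]
    exact Finset.single_le_sum (f := fun i => (m - 1) / p ^ i) (fun i _ => Nat.zero_le _)
      (by simp)
  obtain ⟨s, rfl⟩ := h
  have hs : 0 < s := Nat.pos_of_mul_pos_left hm |> fun h => by
    rcases Nat.eq_zero_or_pos s with rfl | h'
    · simp at hm
    · exact h'
  have h2 : s - 1 ≤ (p * s - 1) / p := by
    rw [Nat.le_div_iff_mul_le hp.pos]
    have := hp.pos
    obtain ⟨t, rfl⟩ : ∃ t, s = t + 1 := ⟨s - 1, by omega⟩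
    simp only [Nat.add_sub_cancel]
    have : p * (t + 1) = t * p + p := by ring
    omega
  have h3 : s - 1 ≤ ((p * s - 1)!).factorization p := h2.trans h1
  have h4 : (s : ℝ) ≤ (((p * s - 1)!).factorization p : ℝ) + 1 := by
    have : s ≤ ((p * s - 1)!).factorization p + 1 := by omega
    exact_mod_cast this
  push_cast
  have hp' : (p : ℝ) ≠ 0 := by exact_mod_cast hp.ne_zero
  rw [mul_comm, mul_div_assoc, div_self hp', mul_one]
  exact h4

/-- the error exponent -/
noncomputable def tiny (m : ℕ) : ℝ := 6 * (m : ℝ) ^ (-(1 / 4) : ℝ)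

lemma sum_fac_le (m : ℕ) (hm : 0 < m) :
    ∑ p ∈ m.primeFactors, (m.factorization p : ℝ) ≤ Real.log m / Real.log 2 := by
  rw [le_div_iff₀ (Real.log_pos (by norm_num)), sum_mul]
  have h1 : Real.log m = ∑ p ∈ m.primeFactors, (m.factorization p : ℝ) * Real.log p := by
    conv_lhs => rw [← Nat.prod_factorization_pow_eq_self hm.ne']
    rw [Finsupp.prod, Nat.support_factorization]
    push_cast
    rw [Real.log_prod]
    · apply sum_congr rfl
      intro p _
      rw [Real.log_pow]
    · intro p hp
      have := (Nat.prime_of_mem_primeFactors hp).pos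
      positivity
  rw [h1]
  apply sum_le_sum
  intro p hp
  apply mul_le_mul_of_nonneg_left _ (by positivity)
  apply Real.log_le_log (by norm_num)
  exact_mod_cast (Nat.prime_of_mem_primeFactors hp).two_le

lemma log_div_sqrt (m : ℕ) (hm : 0 < m) :
    Real.log m / Real.log 2 * (Real.sqrt m / m) ≤ tiny m := by
  have hm' : (0 : ℝ) < m := by exact_mod_cast hm
  have h1 : Real.log m ≤ (m : ℝ) ^ (1 / 4 : ℝ) / (1 / 4) := 
    Real.log_le_rpow_div hm'.le (by norm_num)
  have h2 : Real.sqrt m / m = (m : ℝ) ^ (-(1 / 2) : ℝ) := by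
    rw [Real.sqrt_eq_rpow, Real.rpow_neg hm'.le]
    have : (m : ℝ) = (m : ℝ) ^ (1 / 2 : ℝ) * (m : ℝ) ^ (1 / 2 : ℝ) := by
      rw [← Real.rpow_add hm']; norm_num
    have h3 : (0 : ℝ) < (m : ℝ) ^ (1 / 2 : ℝ) := by positivity
    field_simp
    nlinarith
  rw [h2]
  have hl2 : (0.6931471803 : ℝ) < Real.log 2 := Real.log_two_gt_d9
  have h3 : Real.log m / Real.log 2 ≤ 6 * (m : ℝ) ^ (1 / 4 : ℝ) := by
    rw [div_le_iff₀ (by linarith)]
    have : (0 : ℝ) < (m : ℝ) ^ (1 / 4 : ℝ) := by positivity
    nlinarith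
  calc Real.log m / Real.log 2 * (m : ℝ) ^ (-(1 / 2) : ℝ) 
      ≤ 6 * (m : ℝ) ^ (1 / 4 : ℝ) * (m : ℝ) ^ (-(1 / 2) : ℝ) :=
        mul_le_mul_of_nonneg_right h3 (by positivity)
    _ = tiny m := by
        unfold tiny
        rw [mul_assoc, ← Real.rpow_add hm']
        norm_num

/-- factor bound -/
lemma factor_le (m p : ℕ) (hm : 0 < m) (hp : p ∈ m.primeFactors) :
    1 + (m.factorization p : ℝ) / (((m - 1)!).factorization p + 1) ≤
      1 + (m.factorization p : ℝ) * (p / m) := by
  have hpp := Nat.prime_of_mem_primeFactors hp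
  have h1 := val_lower m p hm hpp (Nat.dvd_of_mem_primeFactors hp)
  have hm' : (0 : ℝ) < m := by exact_mod_cast hm
  have hp' : (0 : ℝ) < p := by exact_mod_cast hpp.pos
  have h2 : (0 : ℝ) < (m : ℝ) / p := by positivity
  have h3 : 1 / ((((m - 1)!).factorization p : ℝ) + 1) ≤ (p : ℝ) / m := by
    have := one_div_le_one_div_of_le h2 h1
    rwa [one_div_div] at this
  have h4 : (m.factorization p : ℝ) / (((m - 1)!).factorization p + 1) =
      (m.factorization p : ℝ) * (1 / ((((m - 1)!).factorization p : ℝ) + 1)) := by ring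
  rw [h4]
  have : (0 : ℝ) ≤ (m.factorization p : ℝ) := by positivity
  have := mul_le_mul_of_nonneg_left h3 this
  linarith

/-- product over small primes -/
lemma small_prod (m : ℕ) (hm : 0 < m) (S : Finset ℕ) (hS : S ⊆ m.primeFactors)
    (h : ∀ p ∈ S, p * p ≤ m) :
    ∏ p ∈ S, (1 + (m.factorization p : ℝ) / (((m - 1)!).factorization p + 1)) ≤
      Real.exp (tiny m) := by
  have hm' : (0 : ℝ) < m := by exact_mod_cast hm
  calc ∏ p ∈ S, (1 + (m.factorization p : ℝ) / (((m - 1)!).factorization p + 1)) 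
      ≤ ∏ p ∈ S, Real.exp ((m.factorization p : ℝ) * (Real.sqrt m / m)) := by
        apply prod_le_prod
        · intro p _; positivity
        · intro p hp
          refine (factor_le m p hm (hS hp)).trans ?_
          have h1 : (p : ℝ) ≤ Real.sqrt m := by
            apply Real.le_sqrt_of_sq_le
            have := h p hp
            rw [sq]
            exact_mod_cast this
          have h2 : (m.factorization p : ℝ) * (p / m) ≤
              (m.factorization p : ℝ) * (Real.sqrt m / m) := by
            apply mul_le_mul_of_nonneg_left _ (by positivity)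
            exact div_le_div_of_nonneg_right h1 hm'.le
          have := Real.add_one_le_exp ((m.factorization p : ℝ) * (Real.sqrt m / m))
          linarith
    _ = Real.exp ((∑ p ∈ S, (m.factorization p : ℝ)) * (Real.sqrt m / m)) := by
        rw [← Real.exp_sum, sum_mul]
    _ ≤ Real.exp (tiny m) := by
        apply Real.exp_le_exp.2
        refine le_trans ?_ (log_div_sqrt m hm)
        apply mul_le_mul_of_nonneg_right _ (by positivity)
        refine le_trans ?_ (sum_fac_le m hm)
        exact sum_le_sum_of_subset_of_nonneg hS (fun _ _ _ => by positivity)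

theorem gg_le (m : ℕ) (hm : 0 < m) (X : ℝ) (hX : 0 ≤ X)
    (h : ∀ q : ℕ, q.Prime → q ∣ m → (q : ℝ) ≤ X * m) :
    gg m ≤ (1 + X) * Real.exp (tiny m) := by
  have hm' : (0 : ℝ) < m := by exact_mod_cast hm
  rw [gg_eq m hm]
  by_cases hq : ∃ q ∈ m.primeFactors, m < q * q
  · obtain ⟨q, hqm, hq⟩ := hq
    have hqp := Nat.prime_of_mem_primeFactors hqm
    have hqd := Nat.dvd_of_mem_primeFactors hqm
    rw [← mul_prod_erase _ _ hqm]
    apply mul_le_mul
    · refine (factor_le m q hm hqm).trans ?_
      have h1 : m.factorization q = 1 := by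
        have h2 : m.factorization q < 2 := by
          by_contra hcon
          push Not at hcon
          have h3 : q ^ 2 ∣ m := (hqp.pow_dvd_iff_le_factorization hm.ne').2 hcon
          have := Nat.le_of_dvd hm h3
          nlinarith
        have h3 : 0 < m.factorization q := hqp.factorization_pos_of_dvd hm.ne' hqd
        omega
      rw [h1]
      have h2 := h q hqp hqd
      have h3 : (q : ℝ) / m ≤ X := by rwa [div_le_iff₀ hm']
      push_cast
      linarith
    · apply small_prod m hm _ (erase_subset _ _)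
      intro p hp
      have hpq : p ≠ q := (mem_erase.1 hp).1
      have hpm := (mem_erase.1 hp).2
      have hpp := Nat.prime_of_mem_primeFactors hpm
      have hpd := Nat.dvd_of_mem_primeFactors hpm
      have hco : Nat.Coprime p q := (Nat.coprime_primes hpp hqp).2 hpq
      have h1 : p * q ∣ m := hco.mul_dvd_of_dvd_of_dvd hpd hqd
      have h2 := Nat.le_of_dvd hm h1
      have h3 : p < q := by
        by_contra hcon
        push Not at hcon
        have : q * q ≤ p * q := Nat.mul_le_mul_right q hcon
        omega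
      have : p * p ≤ p * q := Nat.mul_le_mul_left p h3.le
      omega
    · apply prod_nonneg
      intro p _; positivity
    · linarith
  · push Not at hq
    have h1 := small_prod m hm m.primeFactors (subset_refl _) hq
    have h2 : Real.exp (tiny m) ≤ (1 + X) * Real.exp (tiny m) := by
      have := Real.exp_pos (tiny m)
      nlinarith
    exact h1.trans h2

lemma gg_prime (c q : ℕ) (hc : 0 < c) (hq : q.Prime) (hcq : c < q) :
    1 + 1 / (c : ℝ) ≤ gg (c * q) := by
  have hm : 0 < c * q := Nat.mul_pos hc hq.pos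
  rw [gg_eq _ hm]
  have hqm : q ∈ (c * q).primeFactors := by
    rw [Nat.mem_primeFactors]
    exact ⟨hq, Dvd.intro_left c rfl, hm.ne'⟩
  rw [← mul_prod_erase _ _ hqm]
  have h1 : 1 ≤ (c * q).factorization q := 
    hq.factorization_pos_of_dvd hm.ne' (Dvd.intro_left c rfl)
  have h2 : ((c * q - 1)!).factorization q = c - 1 := by
    have hlt : c * q - 1 < q ^ 2 := by
      have : c * q < q * q := Nat.mul_lt_mul_of_pos_right hcq hq.pos
      rw [sq]; omega
    have hb : Nat.log q (c * q - 1) < 2 := by
      apply Nat.log_lt_of_lt_pow' (by norm_num) hlt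
    rw [Nat.factorization_factorial hq hb]
    simp only [show Ico 1 2 = {1} from rfl, sum_singleton, pow_one]
    obtain ⟨d, rfl⟩ : ∃ d, c = d + 1 := ⟨c - 1, by omega⟩
    simp only [Nat.add_sub_cancel]
    have hq2 := hq.pos
    have : (d + 1) * q - 1 = (q - 1) + q * d := by
      have : (d + 1) * q = q * d + q := by ring
      omega
    rw [this, Nat.add_mul_div_left _ _ hq2, Nat.div_eq_of_lt (by omega)]
    simp
  have h3 : 1 + 1 / (c : ℝ) ≤ 1 + ((c * q).factorization q : ℝ) /
      ((((c * q - 1)!).factorization q : ℝ) + 1) := by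
    rw [h2]
    have : ((c - 1 : ℕ) : ℝ) + 1 = c := by
      have : ((c - 1 : ℕ) : ℝ) + 1 = ((c - 1 + 1 : ℕ) : ℝ) := by push_cast; ring
      rw [this]; congr 1; omega
    rw [this]
    have hc' : (0 : ℝ) < c := by exact_mod_cast hc
    have h4 : (1 : ℝ) ≤ ((c * q).factorization q : ℝ) := by exact_mod_cast h1
    have := div_le_div_of_nonneg_right h4 hc'.le
    linarith
  have h4 : 1 ≤ ∏ p ∈ (c * q).primeFactors.erase q,
      (1 + ((c * q).factorization p : ℝ) / ((((c * q - 1)!).factorization p : ℝ) + 1)) := by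
    apply one_le_prod_real
    intro p _
    have : (0 : ℝ) ≤ ((c * q).factorization p : ℝ) / 
      ((((c * q - 1)!).factorization p : ℝ) + 1) := by positivity
    linarith
  have hc' : (0 : ℝ) < 1 / (c : ℝ) := by
    have : (0 : ℝ) < c := by exact_mod_cast hc
    positivity
  nlinarith

/-- telescoping -/
lemma ratio_eq_prod (n k : ℕ) :
    (σ 0 ((n + k)!) : ℝ) / (σ 0 (n !) : ℝ) = ∏ m ∈ Ioc n (n + k), gg m := by
  induction k with
  | zero =>
    simp only [add_zero, Ioc_self, prod_empty]
    exact div_self (sig_pos _ (Nat.factorial_ne_zero _)).ne'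
  | succ k ih =>
    have h1 : Ioc n (n + (k + 1)) = insert (n + (k + 1)) (Ioc n (n + k)) := by
      ext x; simp only [mem_Ioc, mem_insert]; omega
    rw [h1, prod_insert (by simp), ← ih]
    unfold gg
    have h2 := (sig_pos _ (Nat.factorial_ne_zero (n + k))).ne'
    have h3 := (sig_pos _ (Nat.factorial_ne_zero n)).ne'
    have h4 : n + (k + 1) - 1 = n + k := by omega
    rw [h4]
    field_simp

lemma F_eq (f : ℕ → ℝ) (n : ℕ) : N6813fd5a.F f n = ∏ m ∈ Ioc n (n + ⌊f n⌋₊), gg m := by
  unfold N6813fd5a.F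
  exact ratio_eq_prod n _

end Pool.Agent.Helper1.BE
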