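import Mathlib
import Pool.Agent.Helper1.BE.GG
import Pool.Agent.Helper99.MT2.Statement

set_option autoImplicit false

open Finset Filter Topology

namespace Pool.Agent.Helper1.BE

open Pool.Agent.Helper99.MT2

lemma aux_prod (a b : ℝ) (h0 : 0 ≤ a) (h1 : a ≤ 1) (hb : b ≤ 1 / 2 * a) (hb0 : 0 ≤ b) :
    (1 + a) * (1 + b) ≤ 1 + 2 * a := by
  have h2 : a * b ≤ 1 * b := mul_le_mul_of_nonneg_right h1 hb0
  linarith

/-- discrete intermediate value argument -/
theorem window (f : ℕ → ℝ) (a b k : ℕ) (hab : a ≤ b)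
    (hk : ∀ n, a ≤ n → n ≤ b → ⌊f n⌋₊ = k)
    (δ α : ℝ) (hδ : 0 ≤ δ) (hα : 0 < α)
    (hg : ∀ m, a + k < m → m ≤ b + k → gg m ≤ 1 + δ)
    (ha : ∏ m ∈ Ioc a (a + k), gg m ≤ α) (hb : α ≤ ∏ m ∈ Ioc b (b + k), gg m) :
    ∃ n, α ≤ N6813fd5a.F f n ∧ N6813fd5a.F f n ≤ α * (1 + δ) := by
  classical
  have hex : ∃ i, a + i ≤ b ∧ α ≤ ∏ m ∈ Ioc (a + i) (a + i + k), gg m := by
    refine ⟨b - a, by omega, ?_⟩
    have : a + (b - a) = b := by omega
    rw [this]; exact hb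
  obtain ⟨h1, h2⟩ := Nat.find_spec hex
  set i := Nat.find hex with hi
  refine ⟨a + i, ?_, ?_⟩
  · rw [F_eq, hk _ (by omega) h1]; exact h2
  · rw [F_eq, hk _ (by omega) h1]
    rcases Nat.eq_zero_or_pos i with h0 | h0
    · rw [h0, add_zero]
      nlinarith
    · obtain ⟨t, ht⟩ : ∃ t, i = t + 1 := ⟨i - 1, by omega⟩
      have h3 : ¬ (a + t ≤ b ∧ α ≤ ∏ m ∈ Ioc (a + t) (a + t + k), gg m) :=
        Nat.find_min hex (by omega)
      have h4 : ∏ m ∈ Ioc (a + t) (a + t + k), gg m < α := by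
        by_contra hcon
        push Not at hcon
        exact h3 ⟨by omega, hcon⟩
      rw [ht]
      -- compare the products
      have h5 : gg (a + t + 1) * ∏ m ∈ Ioc (a + (t + 1)) (a + (t + 1) + k), gg m =
          gg (a + (t + 1) + k) * ∏ m ∈ Ioc (a + t) (a + t + k), gg m := by
        have e1 : Ioc (a + t) (a + (t + 1) + k) = 
            insert (a + t + 1) (Ioc (a + (t + 1)) (a + (t + 1) + k)) := by
          ext x; simp only [mem_Ioc, mem_insert]; omega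
        have e2 : Ioc (a + t) (a + (t + 1) + k) = 
            insert (a + (t + 1) + k) (Ioc (a + t) (a + t + k)) := by
          ext x; simp only [mem_Ioc, mem_insert]; omega
        rw [← prod_insert (by simp), ← prod_insert (by simp), ← e1, ← e2]
      have h6 := hg (a + (t + 1) + k) (by omega) (by omega)
      have h7 := gg_ge_one (a + t + 1)
      have h8 : 0 ≤ ∏ m ∈ Ioc (a + (t + 1)) (a + (t + 1) + k), gg m :=
        prod_nonneg fun m _ => by linarith [gg_ge_one m]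
      have h9 : 0 ≤ ∏ m ∈ Ioc (a + t) (a + t + k), gg m :=
        prod_nonneg fun m _ => by linarith [gg_ge_one m]
      have h10 := gg_ge_one (a + (t + 1) + k)
      have h11 : gg (a + (t + 1) + k) * ∏ m ∈ Ioc (a + t) (a + t + k), gg m ≤ 
          (1 + δ) * α := by
        apply mul_le_mul h6 h4.le h9 (by linarith)
      nlinarith

lemma ev_exp (n : ℕ) (ε : ℝ) (hε : 0 < ε) (A : ℝ) :
    ∀ᶠ J : ℕ in atTop, A * (J : ℝ) ^ n ≤ Real.exp (ε * J) := by
  have h1 := isLittleO_pow_exp_pos_mul_atTop (k := n) hε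
  have h2 : ∀ᶠ x : ℝ in atTop, ‖x ^ n‖ ≤ (1 / (|A| + 1)) * ‖Real.exp (ε * x)‖ :=
    h1.bound (by positivity)
  have h3 := tendsto_natCast_atTop_atTop (R := ℝ) |>.eventually h2
  filter_upwards [h3] with J hJ
  rw [Real.norm_of_nonneg (by positivity), Real.norm_of_nonneg (Real.exp_pos _).le] at hJ
  have h4 : (0 : ℝ) < |A| + 1 := by positivity
  have h5 : (|A| + 1) * (J : ℝ) ^ n ≤ Real.exp (ε * J) := by
    have := mul_le_mul_of_nonneg_left hJ h4.le
    calc _ ≤ (|A| + 1) * (1 / (|A| + 1) * Real.exp (ε * J)) := this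
      _ = Real.exp (ε * J) := by field_simp
  have h6 : A ≤ |A| + 1 := by linarith [le_abs_self A]
  have h7 : (0 : ℝ) ≤ (J : ℝ) ^ n := by positivity
  nlinarith

/-- numerical conditions -/
def Big (J : ℕ) : Prop :=
  1 ≤ J ∧ Real.exp ((J : ℝ) / 4) ≤ Real.exp ((J : ℝ) / 2) - 3 * J ∧
    (J : ℝ) ^ 2 * Real.exp ((J : ℝ) / 1000) < Real.exp ((J : ℝ) / 4) ∧
    (J : ℝ) ^ 2 * (J : ℝ) ^ 2 < Real.exp ((J : ℝ) / 4) ∧
    ∀ x : ℝ, Real.exp ((J : ℝ) / 4) ≤ x →
      Real.exp (6 * x ^ (-(1 / 4) : ℝ)) ≤ 1 + 1 / (2 * (J : ℝ) ^ 2)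

lemma ev_big : ∀ᶠ J : ℕ in atTop, Big J := by
  filter_upwards [eventually_ge_atTop 1, ev_exp 1 (1 / 4) (by norm_num) 3,
    ev_exp 1 (1 / 4) (by norm_num) 4, ev_exp 2 (1 / 8) (by norm_num) 2, 
    ev_exp 4 (1 / 4) (by norm_num) 2,
    ev_exp 2 (1 / 16) (by norm_num) 24] with J h1 h2 h3 h4 h5 h6
  have hJ : (1 : ℝ) ≤ J := by exact_mod_cast h1
  refine ⟨h1, ?_, ?_, ?_, ?_⟩
  · have e1 : Real.exp ((J : ℝ) / 2) = Real.exp (1 / 4 * J) * Real.exp (1 / 4 * J) := by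
      rw [← Real.exp_add]; congr 1; ring
    have e2 : Real.exp ((J : ℝ) / 4) = Real.exp (1 / 4 * J) := by congr 1; ring
    rw [e1, e2]
    rw [pow_one] at h2 h3
    nlinarith
  · have e1 : Real.exp ((J : ℝ) / 4) = Real.exp (1 / 8 * J) * Real.exp (1 / 8 * J) := by
      rw [← Real.exp_add]; congr 1; ring
    have e2 : Real.exp ((J : ℝ) / 1000) ≤ Real.exp (1 / 8 * J) := by
      apply Real.exp_le_exp.2; linarith
    rw [e1]
    have e3 := Real.exp_pos (1 / 8 * (J : ℝ))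
    have e4 : (J : ℝ) ^ 2 < Real.exp (1 / 8 * J) := by nlinarith
    calc (J : ℝ) ^ 2 * Real.exp ((J : ℝ) / 1000) ≤ (J : ℝ) ^ 2 * Real.exp (1 / 8 * J) := 
          mul_le_mul_of_nonneg_left e2 (by positivity)
      _ < _ := mul_lt_mul_of_pos_right e4 e3
  · have e2 : Real.exp ((J : ℝ) / 4) = Real.exp (1 / 4 * J) := by congr 1; ring
    rw [e2]
    have : (0 : ℝ) < (J : ℝ) ^ 4 := by positivity
    nlinarith
  · intro x hx
    have e0 := Real.exp_pos ((J : ℝ) / 4)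
    have hx0 : 0 < x := lt_of_lt_of_le e0 hx
    have e1 : x ^ (-(1 / 4) : ℝ) ≤ Real.exp (-(1 / 16 * J)) := by
      have : x ^ (-(1 / 4) : ℝ) ≤ (Real.exp ((J : ℝ) / 4)) ^ (-(1 / 4) : ℝ) :=
        Real.rpow_le_rpow_of_nonpos e0 hx (by norm_num)
      refine this.trans (le_of_eq ?_)
      rw [← Real.exp_mul]; congr 1; ring
    have e2 : Real.exp (-(1 / 16 * (J : ℝ))) ≤ 1 / (24 * (J : ℝ) ^ 2) := by
      rw [Real.exp_neg, inv_eq_one_div]
      exact one_div_le_one_div_of_le (by positivity) h6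
    have e3 : 6 * x ^ (-(1 / 4) : ℝ) ≤ 1 / (4 * (J : ℝ) ^ 2) := by
      have : 6 * (1 / (24 * (J : ℝ) ^ 2)) = 1 / (4 * (J : ℝ) ^ 2) := by field_simp; norm_num
      rw [← this]
      linarith
    have e4 : 0 ≤ 6 * x ^ (-(1 / 4) : ℝ) := by positivity
    have e5 : 1 / (4 * (J : ℝ) ^ 2) ≤ 1 := by
      rw [div_le_one (by positivity)]; nlinarith
    have e6 : |6 * x ^ (-(1 / 4) : ℝ)| ≤ 1 := by rw [abs_of_nonneg e4]; linarith
    have e7 := Real.abs_exp_sub_one_le e6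
    rw [abs_of_nonneg e4] at e7
    have e8 := (abs_le.1 e7).2
    have e9 : 2 * (1 / (4 * (J : ℝ) ^ 2)) = 1 / (2 * (J : ℝ) ^ 2) := by field_simp; norm_num
    linarith

lemma yJ_le (J : ℕ) : yJ J ≤ J := by
  unfold yJ
  apply Nat.floor_le_of_le
  have : Real.exp (-Real.sqrt (Real.log J)) ≤ 1 := by
    rw [Real.exp_le_one_iff]
    have := Real.sqrt_nonneg (Real.log J)
    linarith
  have h : (0 : ℝ) ≤ J := by positivity
  nlinarith

lemma coprime_Wf (y pe q : ℕ) (hq : q.Prime) (hy : y < q) : Nat.Coprime q (Wf y pe) := by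
  unfold Wf
  apply Nat.Coprime.prod_right
  intro p hp
  simp only [mem_filter, mem_range] at hp
  exact (Nat.coprime_primes hq hp.2.1).2 (by omega)

lemma Wf_pos (y pe : ℕ) : 0 < Wf y pe := by
  unfold Wf
  apply prod_pos
  intro p hp
  simp only [mem_filter, mem_range] at hp
  exact hp.2.1.pos

theorem pointwise (J pe c v m : ℕ) (j : ℤ) (hc : 0 < c) (hJ : Big J)
    (hm : Real.exp ((J : ℝ) / 2) ≤ m)
    (hv : m ≡ v [MOD Wf (yJ J) pe]) (hj : |j| ≤ 3 * J) :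
    gg ((c * m + j : ℤ).toNat) ≤ 1 + 3 / (J : ℝ) ^ 2 +
      (haveI := Classical.dec (Rough J pe (c * m + j));
       if Rough J pe (c * m + j) then 2 / (Int.gcd (c * v + j) (Wf (yJ J) pe) : ℝ) else 0) := by
  obtain ⟨hJ1, hb1, hb2, hb3, hb4⟩ := hJ
  have hJr : (1 : ℝ) ≤ J := by exact_mod_cast hJ1
  set M := (c * m + j : ℤ).toNat with hMdef
  have hjr : -(3 * (J : ℝ)) ≤ (j : ℝ) := by
    have := (abs_le.1 hj).1
    exact_mod_cast this
  have hcm : (m : ℝ) ≤ c * m := by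
    have : (1 : ℝ) ≤ c := by exact_mod_cast hc
    exact le_mul_of_one_le_left (Nat.cast_nonneg m) this
  have hx : Real.exp ((J : ℝ) / 4) ≤ (c : ℝ) * m + j := by linarith
  have hx0 : (0 : ℝ) < (c : ℝ) * m + j := lt_of_lt_of_le (Real.exp_pos _) hx
  have hz0 : (0 : ℤ) < c * m + j := by exact_mod_cast hx0
  have hMz : (M : ℤ) = c * m + j := Int.toNat_of_nonneg hz0.le
  have hMr : (M : ℝ) = (c : ℝ) * m + j := by
    have : ((M : ℤ) : ℝ) = ((c * m + j : ℤ) : ℝ) := by rw [hMz]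
    push_cast at this
    exact this
  have hM0 : 0 < M := by
    have : (0 : ℤ) < M := by rw [hMz]; exact hz0
    exact_mod_cast this
  have hMr0 : (0 : ℝ) < M := by exact_mod_cast hM0
  have hMx : Real.exp ((J : ℝ) / 4) ≤ M := by rw [hMr]; exact hx
  have htiny : Real.exp (tiny M) ≤ 1 + 1 / (2 * (J : ℝ) ^ 2) := hb4 M hMx
  have hJ2 : (0 : ℝ) < (J : ℝ) ^ 2 := by positivity
  have hJ2' : (1 : ℝ) ≤ (J : ℝ) ^ 2 := one_le_pow₀ hJr
  have hite : 0 ≤ (haveI := Classical.dec (Rough J pe (c * m + j));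
       if Rough J pe (c * m + j) then 2 / (Int.gcd (c * v + j) (Wf (yJ J) pe) : ℝ) else 0) := by
    split_ifs <;> positivity
  by_cases hall : ∀ q : ℕ, q.Prime → q ∣ M → (q : ℝ) ≤ (1 / (J : ℝ) ^ 2) * M
  · have h1 := gg_le M hM0 (1 / (J : ℝ) ^ 2) (by positivity) hall
    have h2 : (1 + 1 / (J : ℝ) ^ 2) * Real.exp (tiny M) ≤
        (1 + 1 / (J : ℝ) ^ 2) * (1 + 1 / (2 * (J : ℝ) ^ 2)) :=
      mul_le_mul_of_nonneg_left htiny (by positivity)
    have h3 : (1 + 1 / (J : ℝ) ^ 2) * (1 + 1 / (2 * (J : ℝ) ^ 2)) ≤ 1 + 3 / (J : ℝ) ^ 2 := by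
      have e : 1 / (2 * (J : ℝ) ^ 2) = (1 / 2) * (1 / (J : ℝ) ^ 2) := by field_simp
      have e' : 3 / (J : ℝ) ^ 2 = 3 * (1 / (J : ℝ) ^ 2) := by ring
      rw [e, e']
      have : 1 / (J : ℝ) ^ 2 ≤ 1 := by rw [div_le_one hJ2]; exact hJ2'
      have h0 : 0 < 1 / (J : ℝ) ^ 2 := by positivity
      have h00 := aux_prod (1 / (J : ℝ) ^ 2) (1 / 2 * (1 / (J : ℝ) ^ 2)) h0.le this le_rfl (by linarith)
      linarith
    linarith
  · push Not at hall
    obtain ⟨q, hq, hqM, hqbig⟩ := hall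
    have hqM' : (M : ℝ) < q * (J : ℝ) ^ 2 := by
      have := mul_lt_mul_of_pos_right hqbig hJ2
      have e : 1 / (J : ℝ) ^ 2 * M * (J : ℝ) ^ 2 = M := by field_simp
      rwa [e] at this
    obtain ⟨s, hs⟩ := hqM
    have hs0 : 0 < s := by
      rcases Nat.eq_zero_or_pos s with h | h
      · rw [h, mul_zero] at hs; omega
      · exact h
    have hsr : (0 : ℝ) < s := by exact_mod_cast hs0
    have hq0 : (0 : ℝ) < q := by exact_mod_cast hq.pos
    have hMqs : (M : ℝ) = q * s := by exact_mod_cast hs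
    have hsJ : (s : ℝ) < (J : ℝ) ^ 2 := by
      rw [hMqs] at hqM'
      exact lt_of_mul_lt_mul_left hqM' hq0.le
    have hqJ2 : (J : ℝ) ^ 2 < q := by
      have h1 : (J : ℝ) ^ 2 * (J : ℝ) ^ 2 < q * (J : ℝ) ^ 2 := by linarith
      exact lt_of_mul_lt_mul_right h1 hJ2.le
    have hqJ2' : J ^ 2 < q := by exact_mod_cast hqJ2
    have hqR : Real.exp ((J : ℝ) / 1000) < q := by
      have h1 : (J : ℝ) ^ 2 * Real.exp ((J : ℝ) / 1000) < (J : ℝ) ^ 2 * q := by linarith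
      exact lt_of_mul_lt_mul_left h1 hJ2.le
    have hqR' : RK J < q := by
      have : (RK J : ℝ) < q := by
        refine lt_of_le_of_lt ?_ hqR
        exact Nat.floor_le (Real.exp_pos _).le
      exact_mod_cast this
    -- the other primes are small
    have hoth : ∀ p : ℕ, p.Prime → p ∣ M → p ≠ q → (p : ℝ) ≤ s := by
      intro p hp hpM hpq
      have hco : Nat.Coprime p q := (Nat.coprime_primes hp hq).2 hpq
      rw [hs] at hpM
      have : p ∣ s := hco.dvd_of_dvd_mul_left hpM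
      exact_mod_cast Nat.le_of_dvd hs0 this
    have hrough : Rough J pe (c * m + j) := by
      intro p hp hp1 hp2 _ hpd
      rw [← hMz] at hpd
      have hpd' : p ∣ M := by exact_mod_cast hpd
      have hpq : p ≠ q := by omega
      have h1 := hoth p hp hpd' hpq
      have h2 : ((J ^ 2 : ℕ) : ℝ) < p := by exact_mod_cast hp1
      push_cast at h2
      linarith
    rw [if_pos hrough]
    set d := Int.gcd (c * v + j) (Wf (yJ J) pe) with hd
    have hdW : d ∣ Wf (yJ J) pe := by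
      have : (d : ℤ) ∣ (Wf (yJ J) pe : ℤ) := Int.gcd_dvd_right _ _
      exact_mod_cast this
    have hdpos : 0 < d := Nat.pos_of_dvd_of_pos hdW (Wf_pos _ _)
    have hdM : d ∣ M := by
      have h1 : (d : ℤ) ∣ c * v + j := Int.gcd_dvd_left _ _
      have h2 : (Wf (yJ J) pe : ℤ) ∣ (v : ℤ) - m := (Nat.modEq_iff_dvd).1 hv
      have h3 : (d : ℤ) ∣ (v : ℤ) - m := (Int.natCast_dvd_natCast.2 hdW).trans h2
      have h4 : (d : ℤ) ∣ (c * v + j) - c * ((v : ℤ) - m) := dvd_sub h1 (Dvd.dvd.mul_left h3 _)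
      have h5 : (c * (v : ℤ) + j) - c * ((v : ℤ) - m) = M := by rw [hMz]; ring
      rw [h5] at h4
      exact_mod_cast h4
    have hyq : yJ J < q := by
      have h1 := yJ_le J
      have h2 : J ≤ J ^ 2 := Nat.le_self_pow (by norm_num) J
      omega
    have hqW : Nat.Coprime q (Wf (yJ J) pe) := coprime_Wf _ _ _ hq hyq
    have hdq : Nat.Coprime d q := (hqW.coprime_dvd_right hdW).symm
    have hds : d ∣ s := by
      rw [hs] at hdM
      exact hdq.dvd_of_dvd_mul_left hdM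
    have hds' : (d : ℝ) ≤ s := by exact_mod_cast Nat.le_of_dvd hs0 hds
    have hdr : (0 : ℝ) < d := by exact_mod_cast hdpos
    -- bound
    have hall2 : ∀ p : ℕ, p.Prime → p ∣ M → (p : ℝ) ≤ (1 / (s : ℝ)) * M := by
      intro p hp hpM
      have e : 1 / (s : ℝ) * M = q := by rw [hMqs]; field_simp
      rw [e]
      by_cases hpq : p = q
      · rw [hpq]
      · have := hoth p hp hpM hpq
        linarith
    have h1 := gg_le M hM0 (1 / (s : ℝ)) (by positivity) hall2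
    have h2 : (1 + 1 / (s : ℝ)) * Real.exp (tiny M) ≤
        (1 + 1 / (s : ℝ)) * (1 + 1 / (2 * (J : ℝ) ^ 2)) :=
      mul_le_mul_of_nonneg_left htiny (by positivity)
    have h3 : (1 + 1 / (s : ℝ)) * (1 + 1 / (2 * (J : ℝ) ^ 2)) ≤ 1 + 2 / (s : ℝ) := by
      have e0 : 1 / (2 * (J : ℝ) ^ 2) ≤ 1 / (2 * s) := 
        one_div_le_one_div_of_le (by positivity) (by linarith)
      have e : 1 / (2 * (s : ℝ)) = (1 / 2) * (1 / (s : ℝ)) := by field_simp
      have e' : 2 / (s : ℝ) = 2 * (1 / (s : ℝ)) := by ring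
      rw [e] at e0
      rw [e']
      have hs1 : (1 : ℝ) ≤ s := by exact_mod_cast hs0
      have : 1 / (s : ℝ) ≤ 1 := by rw [div_le_one hsr]; exact hs1
      have h0 : 0 < 1 / (s : ℝ) := by positivity
      have h0' : 0 < 1 / (2 * (J : ℝ) ^ 2) := by positivity
      exact aux_prod (1 / (s : ℝ)) (1 / (2 * (J : ℝ) ^ 2)) h0.le this e0 h0'.le
    have h4 : 2 / (s : ℝ) ≤ 2 / d := by
      apply div_le_div_of_nonneg_left (by norm_num) hdr hds'
    have h5 : 0 < 3 / (J : ℝ) ^ 2 := by positivity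
    linarith

end Pool.Agent.Helper1.BE
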