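import Mathlib
import Pool.Agent.Helper1.BE.Window

set_option autoImplicit false

open Finset Filter Topology
open scoped Nat

namespace Pool.Agent.Helper1.BE

open Pool.Agent.Helper99.MT2

lemma adm (K : ℕ) : Admissible (fun i : Fin K => (i.1 + 1) * K !) := by
  intro p hp
  by_cases hpK : p ≤ K
  · refine ⟨1, fun i hd => ?_⟩
    have h1 : p ∣ K ! := (hp.dvd_factorial).2 hpK
    have h2 : p ∣ (i.1 + 1) * K ! := Dvd.dvd.mul_left h1 _
    have h3 : p ∣ 1 := (Nat.dvd_add_left h2).1 hd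
    exact hp.one_lt.ne' (Nat.dvd_one.1 h3)
  · push Not at hpK
    by_contra hcon
    push Not at hcon
    choose fl hfl using hcon
    have hinj : Function.Injective (fun a : Fin p => fl a.1) := by
      intro a b hab
      simp only at hab
      have h1 := hfl a.1
      have h2 := hfl b.1
      rw [hab] at h1
      have h3 : (p : ℤ) ∣ ((a.1 : ℤ) - b.1) := by
        have e1 : (p : ℤ) ∣ ((a.1 + ((fl b.1).1 + 1) * K ! : ℕ) : ℤ) := by exact_mod_cast h1
        have e2 : (p : ℤ) ∣ ((b.1 + ((fl b.1).1 + 1) * K ! : ℕ) : ℤ) := by exact_mod_cast h2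
        have e3 := dvd_sub e1 e2
        push_cast at e3
        have e4 : ((a.1 : ℤ) + (((fl b.1).1 : ℤ) + 1) * (K ! : ℤ)) - 
            ((b.1 : ℤ) + (((fl b.1).1 : ℤ) + 1) * (K ! : ℤ)) = (a.1 : ℤ) - b.1 := by ring
        rwa [e4] at e3
      have h4 : a.1 ≡ b.1 [MOD p] := by
        apply Nat.ModEq.symm
        exact (Nat.modEq_iff_dvd).2 h3
      have h5 := h4.eq_of_lt_of_lt a.2 b.2
      exact Fin.ext h5
    have := Fintype.card_le_of_injective _ hinj
    simp only [Fintype.card_fin] at this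
    omega

lemma tuple_inj (K : ℕ) : Function.Injective (fun i : Fin K => (i.1 + 1) * K !) := by
  intro a b hab
  simp only at hab
  have h := Nat.eq_of_mul_eq_mul_right (Nat.factorial_pos K) hab
  apply Fin.ext; omega

lemma jumps (fl : ℕ → ℕ) (hfl : Monotone fl) (c H J : ℕ) (hc : 0 < c) (S : Finset ℕ)
    (hbd : ∀ m ∈ S, fl (c * m + H) ≤ 3 * J) :
    #(S.filter (fun m => fl (c * m - 3 * J) ≠ fl (c * m + H))) ≤
      (3 * J + H + 1) * (3 * J + 1) := by
  classical
  set B := S.filter (fun m => fl (c * m - 3 * J) ≠ fl (c * m + H)) with hB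
  have h1 := Finset.card_le_mul_card_image (f := fun m => fl (c * m + H)) B (3 * J + H + 1) ?_
  · refine h1.trans (Nat.mul_le_mul_left _ ?_)
    have h2 : B.image (fun m => fl (c * m + H)) ⊆ range (3 * J + 1) := by
      intro t ht
      rw [mem_image] at ht
      obtain ⟨m, hm, rfl⟩ := ht
      rw [mem_range]
      have := hbd m (mem_filter.1 hm).1
      omega
    have := card_le_card h2
    rwa [card_range] at this
  · intro t ht
    set Q := B.filter (fun m => fl (c * m + H) = t) with hQ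
    have hne : Q.Nonempty := by
      rw [mem_image] at ht
      obtain ⟨m, hm, hmt⟩ := ht
      exact ⟨m, mem_filter.2 ⟨hm, hmt⟩⟩
    have hsub : Q ⊆ Icc (Q.min' hne) (Q.min' hne + (3 * J + H)) := by
      intro m hm
      rw [mem_Icc]
      refine ⟨min'_le _ _ hm, ?_⟩
      by_contra hcon
      push Not at hcon
      set m0 := Q.min' hne with hm0
      have hm0Q : m0 ∈ Q := min'_mem _ _
      have e1 : fl (c * m0 + H) = t := (mem_filter.1 hm0Q).2
      have e2 : fl (c * m + H) = t := (mem_filter.1 hm).2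
      have e3 : fl (c * m - 3 * J) ≠ fl (c * m + H) := (mem_filter.1 (mem_filter.1 hm).1).2
      apply e3
      have e4 : c * m0 + H ≤ c * m - 3 * J := by
        have : c * m0 + c * (3 * J + H) ≤ c * m := by
          rw [← mul_add]; exact Nat.mul_le_mul_left c hcon.le
        have : 3 * J + H ≤ c * (3 * J + H) := Nat.le_mul_of_pos_left _ hc
        omega
      have e5 := hfl e4
      have e6 : fl (c * m - 3 * J) ≤ fl (c * m + H) := hfl (by omega)
      omega
    have := card_le_card hsub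
    rw [Nat.card_Icc] at this
    omega

lemma aux_quad (a b : ℝ) (h1 : 3 ≤ a * b) (h2 : 1 ≤ a) : 1 * 3 ≤ b * (2 * a ^ 2) := by
  have h3 := mul_le_mul_of_nonneg_left h1 (zero_le_one.trans h2)
  linarith

lemma prod_subset_le {ι : Type*} [DecidableEq ι] (T S : Finset ι) (u : ι → ℝ) (hTS : T ⊆ S)
    (h : ∀ i ∈ S, 1 ≤ u i) : ∏ i ∈ T, u i ≤ ∏ i ∈ S, u i := by
  rw [← prod_sdiff hTS]
  have h1 : 1 ≤ ∏ i ∈ S \ T, u i := one_le_prod_real _ _ fun i hi => h i (mem_sdiff.1 hi).1
  have h2 : 1 ≤ ∏ i ∈ T, u i := one_le_prod_real _ _ fun i hi => h i (hTS hi)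
  nlinarith

/-- the non-target shifts -/
noncomputable def TT {K : ℕ} (h : Fin K → ℕ) (c J : ℕ) : Finset ℤ :=
  (Icc (-(3 * J : ℤ)) (3 * J : ℤ)).filter (fun j : ℤ => ∀ i, j ≠ c * h i)

theorem conclude (f : ℕ → ℝ) (hf : Monotone f) (α δ η : ℝ) (hα : 1 < α) (hδ : 0 ≤ δ)
    (c r K J H m : ℕ) (hc : 0 < c) (h : Fin K → ℕ) (hinj : Function.Injective h)
    (hpos : ∀ i, 0 < h i) (hH : ∀ i, c * h i ≤ H)
    (hk : ⌊f (c * m - 3 * J)⌋₊ = ⌊f (c * m + H)⌋₊)
    (hk1 : H < ⌊f (c * m + H)⌋₊) (hk2 : ⌊f (c * m + H)⌋₊ ≤ 3 * J)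
    (h3J : 3 * J ≤ c * m) (hcm : c < m)
    (hr : r ≤ #(univ.filter (fun i => (m + h i).Prime)))
    (hpow : α ≤ (1 + 1 / (c : ℝ)) ^ r) (hη : Real.exp η ≤ α) (hηδ : η ≤ δ)
    (hB : ∑ j ∈ TT h c J, (gg ((c * m + j : ℤ).toNat) - 1) ≤ η)
    (hT : ∀ i, gg (c * (m + h i)) ≤ 1 + δ) :
    ∃ n, α ≤ N6813fd5a.F f n ∧ N6813fd5a.F f n ≤ α * (1 + δ) := by
  classical
  set k := ⌊f (c * m + H)⌋₊ with hkdef
  set N := c * m with hN
  have hfl : Monotone (fun n => ⌊f n⌋₊) := fun a b hab => Nat.floor_mono (hf hab)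
  have hnn : ∀ j : ℤ, 0 ≤ gg ((c * m + j : ℤ).toNat) - 1 := fun j => by
    linarith [gg_ge_one ((c * m + j : ℤ).toNat)]
  refine window f (N - k) (N - k + H) k (by omega) ?_ δ α hδ (by linarith) ?_ ?_ ?_
  · intro n h1 h2
    have e1 := hfl (show N - 3 * J ≤ n by omega)
    have e2 := hfl (show n ≤ N + H by omega)
    simp only at e1 e2
    omega
  · intro n h1 h2
    by_cases htar : ∃ i, n = N + c * h i
    · obtain ⟨i, hi⟩ := htar
      have : n = c * (m + h i) := by rw [hi, hN]; ring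
      rw [this]; exact hT i
    · push Not at htar
      have hmem : ((n : ℤ) - N) ∈ TT h c J := by
        unfold TT
        rw [mem_filter, mem_Icc]
        refine ⟨⟨by omega, by omega⟩, ?_⟩
        intro i hi
        apply htar i
        have : (n : ℤ) = ((N + c * h i : ℕ) : ℤ) := by push_cast; omega
        exact_mod_cast this
      have h3 := single_le_sum (f := fun j : ℤ => gg ((c * m + j : ℤ).toNat) - 1)
        (fun j _ => hnn j) hmem
      have h4 : (c * m + ((n : ℤ) - N) : ℤ).toNat = n := by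
        rw [hN]; push_cast
        have : (c : ℤ) * m + (n - c * m) = n := by ring
        rw [this]; exact Int.toNat_natCast n
      rw [h4] at h3
      linarith
  · have e0 : N - k + k = N := by omega
    rw [e0]
    have h1 : ∏ n ∈ Ioc (N - k) N, gg n ≤ Real.exp (∑ n ∈ Ioc (N - k) N, (gg n - 1)) := by
      rw [Real.exp_sum]
      apply Finset.prod_le_prod
      · intro n _; linarith [gg_ge_one n]
      · intro n _
        have := Real.add_one_le_exp (gg n - 1)
        linarith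
    have h2 : ∑ n ∈ Ioc (N - k) N, (gg n - 1) ≤ η := by
      refine le_trans ?_ hB
      have e1 : ∑ n ∈ Ioc (N - k) N, (gg n - 1) = 
          ∑ j ∈ (Ioc (N - k) N).image (fun n : ℕ => (n : ℤ) - N), 
            (gg ((c * m + j : ℤ).toNat) - 1) := by
        rw [sum_image]
        · apply sum_congr rfl
          intro n _
          have h4 : (c * m + ((n : ℤ) - N) : ℤ).toNat = n := by
            rw [hN]; push_cast
            have : (c : ℤ) * m + (n - c * m) = n := by ring
            rw [this]; exact Int.toNat_natCast n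
          rw [h4]
        · intro a _ b _ hab
          simp only at hab
          omega
      rw [e1]
      apply sum_le_sum_of_subset_of_nonneg
      · intro j hj
        rw [mem_image] at hj
        obtain ⟨n, hn, rfl⟩ := hj
        rw [mem_Ioc] at hn
        unfold TT
        rw [mem_filter, mem_Icc]
        refine ⟨⟨by omega, by omega⟩, ?_⟩
        intro i hi
        have h5 : 0 < c * h i := Nat.mul_pos hc (hpos i)
        have h6 : (0 : ℤ) < c * h i := by exact_mod_cast h5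
        omega
      · intro j _ _
        exact hnn j
    exact h1.trans ((Real.exp_le_exp.2 h2).trans hη)
  · have e0 : N - k + H + k = N + H := by omega
    rw [e0]
    refine hpow.trans ?_
    have hc1 : (1 : ℝ) ≤ 1 + 1 / (c : ℝ) := by
      have : (0 : ℝ) ≤ 1 / (c : ℝ) := by positivity
      linarith
    have h1 : (1 + 1 / (c : ℝ)) ^ r ≤ 
        (1 + 1 / (c : ℝ)) ^ #(univ.filter (fun i => (m + h i).Prime)) :=
      pow_le_pow_right₀ hc1 hr
    refine h1.trans ?_
    rw [← prod_const]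
    have h2 : ∏ _i ∈ univ.filter (fun i => (m + h i).Prime), (1 + 1 / (c : ℝ)) ≤
        ∏ i ∈ univ.filter (fun i => (m + h i).Prime), gg (c * (m + h i)) := by
      apply Finset.prod_le_prod
      · intro i _; linarith
      · intro i hi
        exact gg_prime c _ hc (mem_filter.1 hi).2 (by omega)
    refine h2.trans ?_
    have h3 : ∏ i ∈ univ.filter (fun i => (m + h i).Prime), gg (c * (m + h i)) = 
        ∏ n ∈ (univ.filter (fun i => (m + h i).Prime)).image (fun i => c * (m + h i)), gg n := by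
      rw [prod_image]
      intro a _ b _ hab
      simp only at hab
      have := Nat.eq_of_mul_eq_mul_left hc hab
      exact hinj (by omega)
    rw [h3]
    apply prod_subset_le
    · intro n hn
      rw [mem_image] at hn
      obtain ⟨i, _, rfl⟩ := hn
      rw [mem_Ioc]
      have h5 : 0 < c * h i := Nat.mul_pos hc (hpos i)
      have h6 := hH i
      have h7 : c * (m + h i) = N + c * h i := by rw [hN]; ring
      omega
    · intro n _; exact gg_ge_one n

theorem exists_good (ω : ℕ → ℝ) (hω : ∀ m, 0 ≤ ω m) (hsum : Summable ω)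
    (hpos : 0 < ∑' m, ω m) (S Bad : Finset ℕ) (A B : ℕ → ℝ) (hBad : Bad ⊆ S)
    (r K η ε1 ε3 ε4 : ℝ) (hη : 0 < η) (hr : 1 ≤ r) (hK : 0 ≤ K) (hA0 : ∀ m, 0 ≤ A m)
    (hAK : ∀ m, A m ≤ K) (hB0 : ∀ m, 0 ≤ B m)
    (e1 : ∑' m, (if m ∈ S then 0 else ω m) ≤ ε1 * ∑' m, ω m)
    (e2 : r * ∑' m, ω m ≤ ∑' m, ω m * A m)
    (e3 : ∑ m ∈ S, ω m * B m ≤ ε3 * ∑' m, ω m)
    (e4 : ∑ m ∈ Bad, ω m ≤ ε4 * ∑' m, ω m)
    (hlt : K * ε1 + K / η * ε3 + K * ε4 < 1) :
    ∃ m ∈ S, m ∉ Bad ∧ ω m ≠ 0 ∧ r - 1 < A m ∧ B m ≤ η := by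
  classical
  by_contra hcon
  push Not at hcon
  set Ω := ∑' m, ω m with hΩ
  have hs1 : Summable (fun m => if m ∈ S then (0 : ℝ) else ω m) := by
    apply Summable.of_nonneg_of_le _ _ hsum
    · intro m; split_ifs <;> simp [hω]
    · intro m; split_ifs <;> simp [hω]
  have hs2 : Summable (fun m => if m ∈ S then ω m * A m else 0) := by
    apply summable_of_hasFiniteSupport
    apply Set.Finite.subset S.finite_toSet
    intro m hm
    simp only [Function.mem_support, ne_eq, ite_eq_right_iff, Classical.not_imp] at hm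
    exact hm.1
  have hs3 : Summable (fun m => ω m * A m) := by
    apply Summable.of_nonneg_of_le _ _ (hsum.mul_right K)
    · intro m; exact mul_nonneg (hω m) (hA0 m)
    · intro m; exact mul_le_mul_of_nonneg_left (hAK m) (hω m)
  have h1 : ∑' m, ω m * A m ≤ ∑ m ∈ S, ω m * A m + K * ∑' m, (if m ∈ S then 0 else ω m) := by
    have h2 : ∑' m, ω m * A m ≤ ∑' m, ((if m ∈ S then ω m * A m else 0) + 
        K * (if m ∈ S then 0 else ω m)) := by
      apply Summable.tsum_le_tsum _ hs3 (hs2.add (hs1.mul_left K))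
      intro m
      split_ifs
      · simp
      · simp only [zero_add]
        rw [mul_comm]
        exact mul_le_mul_of_nonneg_right (hAK m) (hω m)
    rw [Summable.tsum_add hs2 (hs1.mul_left K), tsum_mul_left] at h2
    have h3 : ∑' m, (if m ∈ S then ω m * A m else 0) = ∑ m ∈ S, ω m * A m := by
      rw [tsum_eq_sum (s := S)]
      · apply sum_congr rfl
        intro m hm; rw [if_pos hm]
      · intro m hm; rw [if_neg hm]
    rw [h3] at h2
    exact h2
  have h4 : ∑ m ∈ S, ω m * A m ≤ ∑ m ∈ S, ((r - 1) * ω m + K / η * (ω m * B m)) + 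
      ∑ m ∈ Bad, K * ω m := by
    have h5 : ∑ m ∈ Bad, K * ω m = ∑ m ∈ S, (if m ∈ Bad then K * ω m else 0) := by
      rw [← sum_filter]
      congr 1
      ext m
      simp only [mem_filter]
      exact ⟨fun h => ⟨hBad h, h⟩, fun h => h.2⟩
    rw [h5, ← sum_add_distrib]
    apply sum_le_sum
    intro m hm
    have hw := hω m
    have hb := hB0 m
    have hKη : 0 ≤ K / η := by positivity
    have hwb : 0 ≤ ω m * B m := mul_nonneg hw hb
    have hkwb : 0 ≤ K / η * (ω m * B m) := mul_nonneg hKη hwb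
    have hrw : 0 ≤ (r - 1) * ω m := mul_nonneg (by linarith) hw
    by_cases hbad : m ∈ Bad
    · rw [if_pos hbad]
      have := mul_le_mul_of_nonneg_left (hAK m) hw
      linarith
    · rw [if_neg hbad]
      by_cases hw0 : ω m = 0
      · rw [hw0]; simp
      · by_cases hA : r - 1 < A m
        · have h6 := hcon m hm hbad hw0 hA
          have h7 : 1 ≤ B m / η := by rw [le_div_iff₀ hη]; linarith
          have h8 : ω m * A m ≤ K / η * (ω m * B m) := by
            have h9 : K / η * (ω m * B m) = (K * ω m) * (B m / η) := by ring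
            rw [h9]
            have h10 : K * ω m * 1 ≤ K * ω m * (B m / η) := 
              mul_le_mul_of_nonneg_left h7 (mul_nonneg hK hw)
            have h11 := mul_le_mul_of_nonneg_left (hAK m) hw
            linarith
          linarith
        · push Not at hA
          have := mul_le_mul_of_nonneg_left hA hw
          linarith
  have h5 : ∑ m ∈ S, ω m ≤ Ω := hsum.sum_le_tsum S (fun m _ => hω m)
  rw [sum_add_distrib, ← mul_sum, ← mul_sum, ← mul_sum] at h4
  have hKη : 0 ≤ K / η := by positivity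
  have h6 : (r - 1) * ∑ m ∈ S, ω m ≤ (r - 1) * Ω := mul_le_mul_of_nonneg_left h5 (by linarith)
  have h7 : K / η * ∑ m ∈ S, ω m * B m ≤ K / η * (ε3 * Ω) := mul_le_mul_of_nonneg_left e3 hKη
  have h8 : K * ∑ m ∈ Bad, ω m ≤ K * (ε4 * Ω) := mul_le_mul_of_nonneg_left e4 hK
  have h9 : K * ∑' m, (if m ∈ S then 0 else ω m) ≤ K * (ε1 * Ω) := 
    mul_le_mul_of_nonneg_left e1 hK
  have h10 : (K * ε1 + K / η * ε3 + K * ε4) * Ω < 1 * Ω := mul_lt_mul_of_pos_right hlt hpos
  linarith

open Classical in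
theorem sum_bound (J pe c v : ℕ) (hc : 0 < c) (hJ : Big J) (K : ℕ) (h : Fin K → ℕ)
    (ω : ℕ → ℝ) (hω : ∀ m, 0 ≤ ω m) (hsum : Summable ω)
    (hv : ∀ m, ω m ≠ 0 → m ≡ v [MOD Wf (yJ J) pe])
    (S : Finset ℕ) (hS : ∀ m ∈ S, Real.exp ((J : ℝ) / 2) ≤ m)
    (C η : ℝ) (hC : 0 ≤ C)
    (hJ2 : 0 < Real.log J)
    (hrough : ∀ j : ℤ, |j| ≤ 3 * J → (∀ i, j ≠ c * h i) →
            ∑' m : ℕ, (if Rough J pe (c * m + j) then ω m else 0) ≤
              C * (Real.log J / J) * ∑' m, ω m)
    (hcov : ∑ j ∈ (Icc (-(3 * J : ℤ)) (3 * J : ℤ)).filter (fun j : ℤ => ∀ i, j ≠ c * h i),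
          (1 : ℝ) / (Int.gcd (c * v + j) (Wf (yJ J) pe)) ≤ η * (J / Real.log J)) :
    ∑ m ∈ S, ω m * ∑ j ∈ TT h c J, (gg ((c * m + j : ℤ).toNat) - 1) ≤
      (21 / (J : ℝ) + 2 * C * η) * ∑' m, ω m := by
  set Ω := ∑' m, ω m with hΩ
  have hJ1 := hJ.1
  have hJr : (1 : ℝ) ≤ J := by exact_mod_cast hJ1
  have hΩ0 : 0 ≤ Ω := tsum_nonneg hω
  have hTT : TT h c J = 
    (Icc (-(3 * J : ℤ)) (3 * J : ℤ)).filter (fun j : ℤ => ∀ i, j ≠ c * h i) := by
    unfold TT; congr
  have hmem : ∀ j ∈ TT h c J, |j| ≤ 3 * J ∧ ∀ i, j ≠ c * h i := by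
    intro j hj
    unfold TT at hj
    rw [mem_filter, mem_Icc] at hj
    exact ⟨abs_le.2 hj.1, hj.2⟩
  have hcard : (#(TT h c J) : ℝ) ≤ 7 * J := by
    have h1 : #(TT h c J) ≤ #(Icc (-(3 * J : ℤ)) (3 * J : ℤ)) := card_filter_le _ _
    rw [Int.card_Icc] at h1
    have h2 : #(TT h c J) ≤ 7 * J := by omega
    exact_mod_cast h2
  have hs0 : ∑ m ∈ S, ω m ≤ Ω := hsum.sum_le_tsum S (fun m _ => hω m)
  set dd : ℤ → ℝ := fun j => (Int.gcd (c * v + j) (Wf (yJ J) pe) : ℝ) with hdd
  have step1 : ∑ m ∈ S, ω m * ∑ j ∈ TT h c J, (gg ((c * m + j : ℤ).toNat) - 1) ≤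
      ∑ m ∈ S, ∑ j ∈ TT h c J, (3 / (J : ℝ) ^ 2 * ω m + 
        2 * (1 / dd j) * (if Rough J pe (c * m + j) then ω m else 0)) := by
    apply sum_le_sum
    intro m hm
    rw [mul_sum]
    apply sum_le_sum
    intro j hj
    by_cases hw : ω m = 0
    · rw [hw]; simp
    · have h1 := pointwise J pe c v m j hc hJ (hS m hm) (hv m hw) (hmem j hj).1
      have h2 : ω m * (gg ((c * m + j : ℤ).toNat) - 1) ≤ ω m * (3 / (J : ℝ) ^ 2 +
        (if Rough J pe (c * m + j) then 2 / dd j else 0)) := by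
        apply mul_le_mul_of_nonneg_left _ (hω m)
        have : (haveI := Classical.dec (Rough J pe (c * m + j));
          if Rough J pe (c * m + j) then 2 / (Int.gcd (c * v + j) (Wf (yJ J) pe) : ℝ) else 0) = 
          (if Rough J pe (c * m + j) then 2 / dd j else 0) := by congr
        rw [this] at h1
        linarith
      refine h2.trans (le_of_eq ?_)
      split_ifs
      · ring
      · ring
  have step2 : ∑ m ∈ S, ∑ j ∈ TT h c J, (3 / (J : ℝ) ^ 2 * ω m + 
        2 * (1 / dd j) * (if Rough J pe (c * m + j) then ω m else 0)) =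
      #(TT h c J) * (3 / (J : ℝ) ^ 2) * ∑ m ∈ S, ω m + 
      ∑ j ∈ TT h c J, 2 * (1 / dd j) * ∑ m ∈ S, (if Rough J pe (c * m + j) then ω m else 0) := by
    rw [sum_comm]
    simp only [sum_add_distrib, ← mul_sum]
    rw [sum_const, nsmul_eq_mul]
    ring
  rw [step2] at step1
  have step3 : #(TT h c J) * (3 / (J : ℝ) ^ 2) * ∑ m ∈ S, ω m ≤ 21 / (J : ℝ) * Ω := by
    have h1 : #(TT h c J) * (3 / (J : ℝ) ^ 2) ≤ 7 * J * (3 / (J : ℝ) ^ 2) :=
      mul_le_mul_of_nonneg_right hcard (by positivity)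
    have h2 : 7 * (J : ℝ) * (3 / (J : ℝ) ^ 2) = 21 / (J : ℝ) := by field_simp; norm_num
    rw [h2] at h1
    exact mul_le_mul h1 hs0 (sum_nonneg fun m _ => hω m) (by positivity)
  have step4 : ∑ j ∈ TT h c J, 2 * (1 / dd j) * 
      ∑ m ∈ S, (if Rough J pe (c * m + j) then ω m else 0) ≤ 
      ∑ j ∈ TT h c J, (1 / dd j) * (2 * (C * (Real.log J / J) * Ω)) := by
    apply sum_le_sum
    intro j hj
    have hsr : Summable (fun m : ℕ => if Rough J pe (c * m + j) then ω m else 0) := by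
      apply Summable.of_nonneg_of_le _ _ hsum
      · intro m; split_ifs <;> simp [hω]
      · intro m; split_ifs <;> simp [hω]
    have h1 : ∑ m ∈ S, (if Rough J pe (c * m + j) then ω m else 0) ≤
        ∑' m : ℕ, (if Rough J pe (c * m + j) then ω m else 0) := by
      apply hsr.sum_le_tsum S
      intro m _; split_ifs <;> simp [hω]
    have h2 := h1.trans (hrough j (hmem j hj).1 (hmem j hj).2)
    have h3 : 0 ≤ 1 / dd j := by simp only [hdd]; positivity
    have h4 := mul_le_mul_of_nonneg_left h2 h3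
    linarith
  have step5 : ∑ j ∈ TT h c J, (1 / dd j) * (2 * (C * (Real.log J / J) * Ω)) ≤ 
      2 * C * η * Ω := by
    rw [← sum_mul]
    have h1 : ∑ j ∈ TT h c J, 1 / dd j ≤ η * (J / Real.log J) := by
      rw [hTT]; exact hcov
    have h2 : 0 ≤ 2 * (C * (Real.log J / J) * Ω) := by positivity
    have h3 := mul_le_mul_of_nonneg_right h1 h2
    refine h3.trans (le_of_eq ?_)
    have hl : Real.log J ≠ 0 := hJ2.ne'
    have hJ0 : (J : ℝ) ≠ 0 := by positivity
    field_simp
  have e : (21 / (J : ℝ) + 2 * C * η) * Ω = 21 / (J : ℝ) * Ω + 2 * C * η * Ω := by ring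
  rw [e]
  linarith

theorem final_of (hs : SieveStatement) (hc : CoverStatement) :
    ∀ f : ℕ → ℝ, Monotone f → (∀ n, f n ≤ Real.log n) → Tendsto f atTop atTop →
      Set.Ioi (1 : ℝ) ⊆ closure (Set.range (N6813fd5a.F f)) := by
  classical
  intro f hf hlog hlim α hα
  rw [Set.mem_Ioi] at hα
  rw [Metric.mem_closure_range_iff]
  intro ε hε
  have hα0 : 0 < α := by linarith
  -- parameters
  set δ : ℝ := min 1 (ε / (2 * α)) with hδdef
  have hδ : 0 < δ := lt_min one_pos (by positivity)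
  have hδ1 : δ ≤ 1 := min_le_left _ _
  have hδ2 : δ * α < ε := by
    have h1 : δ ≤ ε / (2 * α) := min_le_right _ _
    have h2 : δ * α ≤ ε / (2 * α) * α := mul_le_mul_of_nonneg_right h1 hα0.le
    have h3 : ε / (2 * α) * α = ε / 2 := by field_simp
    linarith
  set η : ℝ := min δ (Real.log α) with hηdef
  have hη : 0 < η := lt_min hδ (Real.log_pos hα)
  have hη1 : η ≤ δ := min_le_left _ _
  have hη2 : Real.exp η ≤ α := by
    calc Real.exp η ≤ Real.exp (Real.log α) := Real.exp_le_exp.2 (min_le_right _ _)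
      _ = α := Real.exp_log hα0
  obtain ⟨c, hcbig, hcp⟩ := Nat.exists_infinite_primes (⌈3 / δ⌉₊ + 1)
  have hc0 : 0 < c := hcp.pos
  have hcr0 : (0 : ℝ) < c := by exact_mod_cast hc0
  have hcδ : 1 / (c : ℝ) ≤ δ / 3 := by
    have h1 : 3 / δ ≤ c := by
      have h2 : 3 / δ ≤ ⌈3 / δ⌉₊ := Nat.le_ceil _
      have h3 : ((⌈3 / δ⌉₊ : ℕ) : ℝ) ≤ c := by exact_mod_cast (by omega : ⌈3 / δ⌉₊ ≤ c)
      linarith
    rw [div_le_iff₀ hδ] at h1
    rw [div_le_div_iff₀ hcr0 (by norm_num)]
    linarith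
  have hc1 : (1 : ℝ) < 1 + 1 / (c : ℝ) := by
    have : (0 : ℝ) < 1 / (c : ℝ) := by positivity
    linarith
  obtain ⟨r, hr⟩ := pow_unbounded_of_one_lt α hc1
  have hr1 : 1 ≤ r := by
    rcases Nat.eq_zero_or_pos r with h0 | h0
    · rw [h0, pow_zero] at hr; linarith
    · exact h0
  obtain ⟨K, hK, hsK⟩ := hs r
  set h : Fin K → ℕ := fun i => (i.1 + 1) * K ! with hh
  have hinj : Function.Injective h := tuple_inj K
  have hpos : ∀ i, 0 < h i := fun i => Nat.mul_pos (Nat.succ_pos _) (Nat.factorial_pos K)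
  obtain ⟨C, hC, hsC⟩ := hsK h hinj c hc0
  have hKr : (0 : ℝ) < K := by exact_mod_cast hK
  set η' : ℝ := η / (8 * K * C) with hη'
  have hη'0 : 0 < η' := by positivity
  obtain ⟨P0, hcov⟩ := hc K h hinj hpos (adm K) c hcp η' hη'0
  set H : ℕ := c * (K * K !) with hH
  have hHi : ∀ i, c * h i ≤ H := by
    intro i
    rw [hH, hh]
    apply Nat.mul_le_mul_left
    apply Nat.mul_le_mul_right
    have := i.2
    omega
  -- lower bound for f
  obtain ⟨N0, hN0⟩ := (tendsto_atTop.1 hlim ((H : ℝ) + 1)).exists_forall_of_atTop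
  -- smallness conditions
  have hsm1 : ∀ᶠ J : ℕ in atTop, K / η * (21 / (J : ℝ)) ≤ 1 / 8 := by
    have h1 : Tendsto (fun J : ℕ => K / η * (21 / (J : ℝ))) atTop (𝓝 (K / η * 0)) :=
      (tendsto_const_div_atTop_nhds_zero_nat 21).const_mul _
    rw [mul_zero] at h1
    exact h1.eventually_le_const (by norm_num)
  have hsm2 : ∀ᶠ J : ℕ in atTop, K * Real.exp (-(J : ℝ) / 100) ≤ 1 / 8 := by
    filter_upwards [ev_exp 0 (1 / 100) (by norm_num) (8 * K)] with J hJ
    rw [pow_zero, mul_one] at hJ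
    have h1 : Real.exp (-(J : ℝ) / 100) = 1 / Real.exp (1 / 100 * J) := by
      rw [one_div, ← Real.exp_neg]; congr 1; ring
    rw [h1, mul_one_div, div_le_iff₀ (Real.exp_pos _)]
    linarith
  have hsm3 : ∀ᶠ J : ℕ in atTop,
      K * (((3 * J + H + 1) * (3 * J + 1) : ℕ) * Real.exp (-(J : ℝ) / 10)) ≤ 1 / 8 := by
    filter_upwards [ev_exp 2 (1 / 10) (by norm_num) (8 * K * ((3 + H + 1) * 4)), 
      eventually_ge_atTop 1] with J hJ hJ1
    have h1 : Real.exp (-(J : ℝ) / 10) = 1 / Real.exp (1 / 10 * J) := by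
      rw [one_div, ← Real.exp_neg]; congr 1; ring
    rw [h1, mul_one_div, ← mul_div_assoc, div_le_iff₀ (Real.exp_pos _)]
    have hJr : (1 : ℝ) ≤ J := by exact_mod_cast hJ1
    have h2 : (((3 * J + H + 1) * (3 * J + 1) : ℕ) : ℝ) ≤ ((3 + H + 1) * 4) * (J : ℝ) ^ 2 := by
      push_cast
      have hH0 : (0 : ℝ) ≤ H := by positivity
      have e1 : 3 * (J : ℝ) + H + 1 ≤ (3 + H + 1) * J := by
        have e0 := mul_nonneg hH0 (sub_nonneg.2 hJr)
        linarith
      have e2 : 3 * (J : ℝ) + 1 ≤ 4 * J := by linarith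
      calc (3 * (J : ℝ) + H + 1) * (3 * J + 1) ≤ ((3 + H + 1) * J) * (4 * J) := 
            mul_le_mul e1 e2 (by positivity) (by positivity)
        _ = _ := by ring
    have h3 := mul_le_mul_of_nonneg_left h2 hKr.le
    linarith
  obtain ⟨J, hJ⟩ := (((((hsC P0).and hcov).and ev_big).and 
    (hsm1.and (hsm2.and hsm3))).and ((eventually_ge_atTop (N0 + c + H + 3)).and 
    ((tendsto_natCast_atTop_atTop (R := ℝ)).eventually (eventually_ge_atTop 
      (Real.log (c + H)))) |>.and (eventually_ge_atTop ⌈3 / δ⌉₊))).exists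
  obtain ⟨⟨⟨⟨hsJ, hcovJ⟩, hbig⟩, hq1, hq2, hq3⟩, ⟨hJN, hJlog⟩, hJδ⟩ := hJ
  obtain ⟨pe, hpe, hpeP, hv⟩ := hsJ
  obtain ⟨v, hvco, hvsum⟩ := hcovJ pe hpe hpeP
  obtain ⟨ω, hω0, hωs, hωpos, hωv, hωmass, hωtail, hωprime, hωrough⟩ := hv v hvco
  set Ω := ∑' m, ω m with hΩ
  obtain ⟨hJ1, hb1, hb2, hb3, hb4⟩ := hbig
  have hJr : (1 : ℝ) ≤ J := by exact_mod_cast hJ1
  have hJ3 : 3 ≤ J := by omega
  have hJlog0 : 0 < Real.log J := by
    apply Real.log_pos
    have : (3 : ℝ) ≤ J := by exact_mod_cast hJ3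
    linarith
  -- lower bounds for `m`
  have hmlow : ∀ m : ℕ, Real.exp ((J : ℝ) / 2) ≤ m → 3 * J < m := by
    intro m hm
    have h1 := Real.exp_pos ((J : ℝ) / 4)
    have h2 : (3 : ℝ) * J < m := by linarith
    exact_mod_cast h2
  set S : Finset ℕ := (range (⌊Real.exp (2 * J)⌋₊ + 1)).filter
    (fun m => Real.exp ((J : ℝ) / 2) ≤ m ∧ (m : ℝ) ≤ Real.exp (2 * J)) with hS
  have hmemS : ∀ m, m ∈ S ↔ (Real.exp ((J : ℝ) / 2) ≤ m ∧ (m : ℝ) ≤ Real.exp (2 * J)) := by
    intro m
    rw [hS, mem_filter, mem_range]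
    constructor
    · exact fun h => h.2
    · intro h
      refine ⟨?_, h⟩
      have := Nat.le_floor h.2
      omega
  have hfl : Monotone (fun n => ⌊f n⌋₊) := fun a b hab => Nat.floor_mono (hf hab)
  have hbd : ∀ m ∈ S, ⌊f (c * m + H)⌋₊ ≤ 3 * J := by
    intro m hm
    obtain ⟨h1, h2⟩ := (hmemS m).1 hm
    apply Nat.floor_le_of_le
    refine (hlog _).trans ?_
    have hE : 1 ≤ Real.exp (2 * (J : ℝ)) := by
      rw [← Real.exp_zero]; apply Real.exp_le_exp.2; positivity
    have hm0 : (0 : ℝ) < m := by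
      have := hmlow m h1
      have h3 : 0 < m := by omega
      exact_mod_cast h3
    have h3 : ((c * m + H : ℕ) : ℝ) ≤ (c + H) * Real.exp (2 * J) := by
      push_cast [hH]
      have : (0 : ℝ) ≤ H := by positivity
      push_cast [hH] at this
      have a1 := mul_le_mul_of_nonneg_left h2 (Nat.cast_nonneg c : (0 : ℝ) ≤ c)
      have a2 := mul_le_mul_of_nonneg_left hE this
      linarith
    have h4 : (0 : ℝ) < ((c * m + H : ℕ) : ℝ) := by
      push_cast [hH]; positivity
    calc Real.log ((c * m + H : ℕ) : ℝ) ≤ Real.log ((c + H) * Real.exp (2 * J)) := 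
          Real.log_le_log h4 h3
      _ = Real.log (c + H) + 2 * J := by
          rw [Real.log_mul (by positivity) (Real.exp_pos _).ne', Real.log_exp]
      _ ≤ ((3 * J : ℕ) : ℝ) := by push_cast; linarith
  have hωpos' : 0 ≤ Ω := hωpos.le
  obtain ⟨m, hmS, hmbad, hω0', hA, hB⟩ := exists_good ω hω0 hωs hωpos S
    (S.filter (fun m => ⌊f (c * m - 3 * J)⌋₊ ≠ ⌊f (c * m + H)⌋₊))
    (fun m => (#(univ.filter (fun i => (m + h i).Prime)) : ℝ))
    (fun m => ∑ j ∈ TT h c J, (gg ((c * m + j : ℤ).toNat) - 1))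
    (filter_subset _ _) r K η (Real.exp (-(J : ℝ) / 100)) (21 / (J : ℝ) + 2 * C * η')
    (((3 * J + H + 1) * (3 * J + 1) : ℕ) * Real.exp (-(J : ℝ) / 10)) hη
    (by exact_mod_cast hr1) hKr.le (fun m => by positivity) (by
      intro m
      have h1 : #(univ.filter (fun i => (m + h i).Prime)) ≤ K := by
        refine (card_filter_le _ _).trans ?_
        simp
      exact_mod_cast h1) (by
      intro m
      apply sum_nonneg
      intro j _
      linarith [gg_ge_one ((c * m + j : ℤ).toNat)]) (by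
      refine le_trans (le_of_eq ?_) hωtail
      apply tsum_congr
      intro m
      simp only [hmemS]) (by
      convert hωprime using 1) (by
      apply sum_bound J pe c v hc0 ⟨hJ1, hb1, hb2, hb3, hb4⟩ K h ω hω0 hωs hωv S 
        (fun m hm => ((hmemS m).1 hm).1) C η' hC.le hJlog0
      · intro j hj1 hj2
        exact hωrough j hj1 hj2
      · exact hvsum) (by
      have h1 : ∀ m ∈ S.filter (fun m => ⌊f (c * m - 3 * J)⌋₊ ≠ ⌊f (c * m + H)⌋₊),
          ω m ≤ Real.exp (-(J : ℝ) / 10) * Ω := by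
        intro m hm
        exact hωmass m ((hmemS m).1 (mem_filter.1 hm).1).1
      have h2 := sum_le_card_nsmul _ _ _ h1
      rw [nsmul_eq_mul] at h2
      refine h2.trans ?_
      rw [← mul_assoc]
      apply mul_le_mul_of_nonneg_right _ hωpos'
      apply mul_le_mul_of_nonneg_right _ (Real.exp_pos _).le
      have h3 := jumps (fun n => ⌊f n⌋₊) hfl c H J hc0 S hbd
      exact_mod_cast h3) (by
      have h1 : K / η * (2 * C * η') = 1 / 4 := by
        rw [hη']; field_simp; norm_num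
      have h2 : K / η * (21 / (J : ℝ) + 2 * C * η') = K / η * (21 / (J : ℝ)) + 1 / 4 := by
        rw [mul_add, h1]
      rw [h2]
      linarith)
  obtain ⟨hm1, hm2⟩ := (hmemS m).1 hmS
  have hm3 := hmlow m hm1
  have hcm : m ≤ c * m := Nat.le_mul_of_pos_left _ hc0
  have hk : ⌊f (c * m - 3 * J)⌋₊ = ⌊f (c * m + H)⌋₊ := by
    by_contra hcon
    exact hmbad (mem_filter.2 ⟨hmS, hcon⟩)
  have hk1 : H < ⌊f (c * m + H)⌋₊ := by
    have h1 := hN0 (c * m + H) (by omega)
    have h2 : H + 1 ≤ ⌊f (c * m + H)⌋₊ := by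
      apply Nat.le_floor
      push_cast
      exact h1
    omega
  have hmain := conclude f hf α δ η hα hδ.le c r K J H m hc0 h hinj hpos hHi hk hk1 
    (hbd m hmS) (by omega) (by omega) (by
      have h1 : (r : ℝ) - 1 < (#(univ.filter (fun i => (m + h i).Prime)) : ℝ) := hA
      have h2 : (r : ℝ) < ((#(univ.filter (fun i => (m + h i).Prime)) + 1 : ℕ) : ℝ) := by
        push_cast; linarith
      have h3 : r < #(univ.filter (fun i => (m + h i).Prime)) + 1 := by exact_mod_cast h2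
      omega) hr.le hη2 hη1 hB (by
      intro i
      have hmi : 0 < c * (m + h i) := Nat.mul_pos hc0 (by omega)
      have h1 := gg_le (c * (m + h i)) hmi (1 / (c : ℝ)) (by positivity) (by
        intro q hq hqd
        have e : 1 / (c : ℝ) * ((c * (m + h i) : ℕ) : ℝ) = ((m + h i : ℕ) : ℝ) := by
          push_cast; field_simp
        rw [e]
        rcases (hq.dvd_mul).1 hqd with h2 | h2
        · have h3 := Nat.le_of_dvd hc0 h2
          have h4 : q ≤ m + h i := by omega
          exact_mod_cast h4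
        · have h3 := Nat.le_of_dvd (by omega) h2
          exact_mod_cast h3)
      have h2 : Real.exp (tiny (c * (m + h i))) ≤ 1 + 1 / (2 * (J : ℝ) ^ 2) := by
        apply hb4
        have h3 : (m : ℝ) ≤ ((c * (m + h i) : ℕ) : ℝ) := by
          have : m ≤ c * (m + h i) := by
            calc m ≤ m + h i := Nat.le_add_right _ _
              _ ≤ c * (m + h i) := Nat.le_mul_of_pos_left _ hc0
          exact_mod_cast this
        have h4 : (0 : ℝ) ≤ 3 * J := by positivity
        linarith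
      have h3 : 1 / (2 * (J : ℝ) ^ 2) ≤ δ / 3 := by
        have h4 : 3 / δ ≤ J := by
          have h5 : ((⌈3 / δ⌉₊ : ℕ) : ℝ) ≤ J := by exact_mod_cast hJδ
          exact (Nat.le_ceil _).trans h5
        rw [div_le_iff₀ hδ] at h4
        rw [div_le_div_iff₀ (by positivity) (by norm_num)]
        exact aux_quad _ _ h4 hJr
      have h4 : (1 + 1 / (c : ℝ)) * Real.exp (tiny (c * (m + h i))) ≤ 
          (1 + δ / 3) * (1 + δ / 3) := by
        apply mul_le_mul (by linarith) (by linarith) (Real.exp_pos _).le (by linarith)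
      have h5 := mul_le_mul_of_nonneg_left hδ1 hδ.le
      linarith)
  obtain ⟨n, hn1, hn2⟩ := hmain
  refine ⟨n, ?_⟩
  rw [Real.dist_eq, abs_sub_comm, abs_of_nonneg (by linarith)]
  linarith

end Pool.Agent.Helper1.BE
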